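import Pool.Agent.W_448so_h63.GC
import Pool.Agent.W_448kk_h94.KkD

/-!
The identity (6,4) at the window (MP_448cb3_co, case B): the leading coefficient of the extremal
cross configurations `z` (label `a`), its two upper covers (label `1`), a set `M` of double near
elements (label `1`).
-/

namespace Pool.Agent.GaussPoset.Win.K2

set_option linter.unusedSectionVars false

open Finset I2

universe u

variable {P : Type u} [Fintype P] [PartialOrder P] [DecidableEq P] {r i : ℕ}

/-- label `a` on `z`, label one on its upper covers and on `M` -/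
noncomputable def eZ (a : ℕ) (z : P) (M : Finset P) (x : P) : ℕ :=
  if x = z then a else if x ∈ uc z ∪ M then 1 else 0

section ez

variable {z y v : P} {a : ℕ} {M : Finset P}

lemma eZ_self : eZ a z M z = a := by
  unfold eZ
  rw [if_pos rfl]

lemma eZ_uc (H : Gr P r) {x : P} (hx : x ∈ uc z) : eZ a z M x = 1 := by
  have h1 := lev_uc H hx
  unfold eZ
  rw [if_neg (by rintro rfl; omega), if_pos (mem_union_left _ hx)]

lemma lev_M (hM : M ⊆ dbL P i ∪ dbU P i) {x : P} (hx : x ∈ M) :
    lev x = i + 1 ∨ lev x + 1 = i := by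
  have := hM hx
  rw [mem_union, mem_dbL, mem_dbU] at this
  tauto

lemma eZ_M (hz : lev z = i + 2) (hM : M ⊆ dbL P i ∪ dbU P i) {x : P} (hx : x ∈ M) :
    eZ a z M x = 1 := by
  have h1 := lev_M hM hx
  unfold eZ
  rw [if_neg (by rintro rfl; omega), if_pos (mem_union_right _ hx)]

lemma eZ_pos {x : P} (hx : 0 < eZ a z M x) : x = z ∨ x ∈ uc z ∨ x ∈ M := by
  by_contra h
  push Not at h
  obtain ⟨h1, h2, h3⟩ := h
  unfold eZ at hx
  rw [if_neg h1, if_neg (by rw [mem_union]; tauto)] at hx
  omega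

lemma eZ_zero {x : P} (h1 : x ≠ z) (h2 : x ∉ uc z) (h3 : x ∉ M) : eZ a z M x = 0 := by
  unfold eZ
  rw [if_neg h1, if_neg (by rw [mem_union]; tauto)]

lemma eZ_site (H : Gr P r) (hz : lev z = i + 2) (hM : M ⊆ dbL P i ∪ dbU P i) {x : P}
    (hx : lev x = i) : eZ a z M x = 0 := by
  apply eZ_zero
  · rintro rfl
    omega
  · intro h
    have := lev_uc H h
    omega
  · intro h
    have := lev_M hM h
    omega

lemma eZ_FD (H : Gr P r) (hz : lev z = i + 2) (hM : M ⊆ dbL P i ∪ dbU P i) {x : P}
    (hx : i < lev x) : FD (eZ a z M) x ↔ x ∈ uc z ∧ 1 < a := by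
  constructor
  · rintro ⟨x', hx', hlt⟩
    have h1 := (H.covBy_iff.1 hx').2
    have h2 : x' = z := by
      rcases eZ_pos (show 0 < eZ a z M x' by omega) with h | h | h
      · exact h
      · have := lev_uc H h
        omega
      · have := lev_M hM h
        omega
    subst h2
    have h3 : x ∈ uc x' := mem_uc.2 hx'
    rw [eZ_self, eZ_uc H h3] at hlt
    exact ⟨h3, hlt⟩
  · rintro ⟨h1, h2⟩
    refine ⟨z, mem_uc.1 h1, ?_⟩
    rw [eZ_self, eZ_uc H h1]
    exact h2

lemma eZ_FU (H : Gr P r) (hz : lev z = i + 2) (hM : M ⊆ dbL P i ∪ dbU P i) {x : P}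
    (hx : lev x < i) : ¬ FU (eZ a z M) x := by
  rintro ⟨x', hx', hlt⟩
  have h1 := (H.covBy_iff.1 hx').2
  rcases eZ_pos (show 0 < eZ a z M x' by omega) with h | h | h
  · subst h
    omega
  · have := lev_uc H h
    omega
  · have := lev_M hM h
    omega

lemma eZ_GU_z (H : Gr P r) (hz : lev z = i + 2) (ha : 1 ≤ a) : GU (eZ a z M) z ↔ a = 1 := by
  constructor
  · rintro ⟨x', hx', hle⟩
    rw [eZ_self, eZ_uc H (mem_uc.2 hx')] at hle
    omega
  · rintro rfl
    obtain ⟨x', hx'⟩ := uc_nonempty H (x := z) (by omega)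
    refine ⟨x', mem_uc.1 hx', ?_⟩
    rw [eZ_self, eZ_uc H hx']

lemma eZ_GU_near (H : Gr P r) (hz : lev z = i + 2) (hM : M ⊆ dbL P i ∪ dbU P i) {x : P}
    (hx : x ∈ uc z ∨ (x ∈ M ∧ lev x = i + 1)) : ¬ GU (eZ a z M) x := by
  rintro ⟨x', hx', hle⟩
  have h1 := (H.covBy_iff.1 hx').2
  rcases hx with h | ⟨h, h2⟩
  · have h3 := lev_uc H h
    rw [eZ_uc H h, eZ_site H hz hM (x := x') (by omega)] at hle
    omega
  · rw [eZ_M hz hM h, eZ_site H hz hM (x := x') (by omega)] at hle
    omega

lemma eZ_GU_zero (H : Gr P r) {x : P} (hx : i < lev x) (h0 : eZ a z M x = 0) :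
    GU (eZ a z M) x := by
  obtain ⟨x', hx'⟩ := uc_nonempty H (x := x) (by omega)
  refine ⟨x', mem_uc.1 hx', ?_⟩
  rw [h0]
  exact Nat.zero_le _

lemma eZ_GD (H : Gr P r) (hir : i ≤ r) (hz : lev z = i + 2) (hM : M ⊆ dbL P i ∪ dbU P i) {x : P}
    (hx : lev x < i) : GD (eZ a z M) x ↔ x ∉ M := by
  constructor
  · rintro ⟨x', hx', hle⟩ h
    have h1 := (H.covBy_iff.1 hx').2
    have h2 := lev_M hM h
    rw [eZ_M hz hM h, eZ_site H hz hM (x := x') (by omega)] at hle
    omega
  · intro h
    obtain ⟨x', hx'⟩ := dc_nonempty H (x := x) (by omega)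
    refine ⟨x', mem_dc.1 hx', ?_⟩
    rw [eZ_zero]
    · exact Nat.zero_le _
    · rintro rfl
      omega
    · intro h1
      have := lev_uc H h1
      omega
    · exact h

lemma eZ_admL (H : Gr P r) (hz : lev z = i + 2) (hM : M ⊆ dbL P i ∪ dbU P i) :
    AdmL i (eZ a z M) := by
  rintro x hx ⟨h1, h2⟩
  rw [eZ_FD H hz hM hx] at h1
  exact eZ_GU_near H hz hM (Or.inl h1.1) h2

lemma eZ_admU (H : Gr P r) (hz : lev z = i + 2) (hM : M ⊆ dbL P i ∪ dbU P i) :
    AdmU i (eZ a z M) := by
  rintro x hx ⟨h1, -⟩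
  exact eZ_FU H hz hM hx h1

lemma eZ_aU (H : Gr P r) (hz : lev z = i + 2) (hM : M ⊆ dbL P i ∪ dbU P i) :
    aU i (eZ a z M) = 0 := by
  classical
  unfold aU
  rw [card_eq_zero, filter_eq_empty_iff]
  rintro x _ ⟨h1, h2⟩
  exact eZ_FU H hz hM h1 h2

lemma eZ_pU (H : Gr P r) (hir : i ≤ r) (hz : lev z = i + 2) (hM : M ⊆ dbL P i ∪ dbU P i) :
    pU i (eZ a z M) = (M ∩ dbU P i).card := by
  classical
  unfold pU
  congr 1
  ext x
  rw [mem_filter, mem_inter]
  constructor
  · rintro ⟨-, h1, -, h3⟩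
    rw [eZ_GD H hir hz hM h1, not_not] at h3
    refine ⟨h3, ?_⟩
    rcases mem_union.1 (hM h3) with h4 | h4
    · have := (mem_dbL.1 h4).1
      omega
    · exact h4
  · rintro ⟨h1, h2⟩
    have h3 := (mem_dbU.1 h2).1
    refine ⟨mem_univ _, by omega, eZ_FU H hz hM (by omega), ?_⟩
    rw [eZ_GD H hir hz hM (by omega), not_not]
    exact h1

lemma eZ_aL (H : Gr P r) (hz : lev z = i + 2) (hM : M ⊆ dbL P i ∪ dbU P i) :
    aL i (eZ a z M) = if 1 < a then (uc z).card else 0 := by
  classical
  unfold aL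
  split_ifs with ha
  · congr 1
    ext x
    rw [mem_filter]
    constructor
    · rintro ⟨-, h1, h2⟩
      exact ((eZ_FD H hz hM h1).1 h2).1
    · intro h
      have := lev_uc H h
      have h1 : i < lev x := by omega
      exact ⟨mem_univ _, h1, (eZ_FD H hz hM h1).2 ⟨h, ha⟩⟩
  · rw [card_eq_zero, filter_eq_empty_iff]
    rintro x _ ⟨h1, h2⟩
    exact ha ((eZ_FD H hz hM h1).1 h2).2

lemma eZ_pL (H : Gr P r) (hz : lev z = i + 2) (hM : M ⊆ dbL P i ∪ dbU P i) (ha : 1 ≤ a)
    (hMz : Disjoint M (uc z)) :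
    pL i (eZ a z M) = (if 1 < a then 1 else (uc z).card) + (M ∩ dbL P i).card := by
  classical
  unfold pL
  by_cases h : 1 < a
  · rw [if_pos h]
    have h1 : univ.filter (fun x : P => i < lev x ∧ ¬ FD (eZ a z M) x ∧ ¬ GU (eZ a z M) x) =
        {z} ∪ (M ∩ dbL P i) := by
      ext x
      rw [mem_filter, mem_union, mem_singleton, mem_inter]
      constructor
      · rintro ⟨-, h1, h2, h3⟩
        have h4 : 0 < eZ a z M x := by
          by_contra h5
          exact h3 (eZ_GU_zero H h1 (by omega))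
        rcases eZ_pos h4 with h5 | h5 | h5
        · exact Or.inl h5
        · exact absurd ((eZ_FD H hz hM h1).2 ⟨h5, h⟩) h2
        · right
          refine ⟨h5, ?_⟩
          rcases mem_union.1 (hM h5) with h6 | h6
          · exact h6
          · have := (mem_dbU.1 h6).1
            omega
      · rintro (rfl | ⟨h1, h2⟩)
        · refine ⟨mem_univ _, by omega, ?_, ?_⟩
          · rw [eZ_FD H hz hM (by omega)]
            rintro ⟨h2, -⟩
            have := lev_uc H h2
            omega
          · rw [eZ_GU_z H hz ha]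
            omega
        · have h3 := (mem_dbL.1 h2).1
          refine ⟨mem_univ _, by omega, ?_, eZ_GU_near H hz hM (Or.inr ⟨h1, h3⟩)⟩
          rw [eZ_FD H hz hM (by omega)]
          rintro ⟨h4, -⟩
          exact disjoint_left.1 hMz h1 h4
    rw [h1, card_union_of_disjoint, card_singleton]
    rw [disjoint_singleton_left, mem_inter]
    rintro ⟨h2, -⟩
    have := lev_M hM h2
    omega
  · rw [if_neg h]
    have h1 : univ.filter (fun x : P => i < lev x ∧ ¬ FD (eZ a z M) x ∧ ¬ GU (eZ a z M) x) =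
        uc z ∪ (M ∩ dbL P i) := by
      ext x
      rw [mem_filter, mem_union, mem_inter]
      constructor
      · rintro ⟨-, h1, h2, h3⟩
        have h4 : 0 < eZ a z M x := by
          by_contra h5
          exact h3 (eZ_GU_zero H h1 (by omega))
        rcases eZ_pos h4 with h5 | h5 | h5
        · subst h5
          exact absurd ((eZ_GU_z H hz ha).2 (by omega)) h3
        · exact Or.inl h5
        · right
          refine ⟨h5, ?_⟩
          rcases mem_union.1 (hM h5) with h6 | h6
          · exact h6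
          · have := (mem_dbU.1 h6).1
            omega
      · rintro (h1 | ⟨h1, h2⟩)
        · have h3 := lev_uc H h1
          refine ⟨mem_univ _, by omega, ?_, eZ_GU_near H hz hM (Or.inl h1)⟩
          rw [eZ_FD H hz hM (by omega)]
          rintro ⟨-, h4⟩
          exact h h4
        · have h3 := (mem_dbL.1 h2).1
          refine ⟨mem_univ _, by omega, ?_, eZ_GU_near H hz hM (Or.inr ⟨h1, h3⟩)⟩
          rw [eZ_FD H hz hM (by omega)]
          rintro ⟨-, h4⟩
          exact h h4
    rw [h1, card_union_of_disjoint]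
    rw [disjoint_left]
    intro x h2 h3
    rw [mem_inter] at h3
    exact disjoint_left.1 hMz h3.1 h2

lemma eZ_AL (H : Gr P r) (hz : lev z = i + 2) (hM : M ⊆ dbL P i ∪ dbU P i) :
    AL i (eZ a z M) = (uc z).biUnion uc ∪ (M ∩ dbL P i).biUnion (ns i) := by
  ext x
  rw [NormD_mem_AL, mem_union, mem_biUnion, mem_biUnion]
  constructor
  · rintro ⟨h1, x', hx', hlt⟩
    have h2 := (H.covBy_iff.1 hx').2
    rcases eZ_pos (show 0 < eZ a z M x' by omega) with h | h | h
    · subst h
      omega
    · exact Or.inl ⟨x', h, mem_uc.2 hx'⟩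
    · right
      have h3 : x' ∈ dbL P i := by
        rcases mem_union.1 (hM h) with h6 | h6
        · exact h6
        · have := (mem_dbU.1 h6).1
          omega
      exact ⟨x', mem_inter.2 ⟨h, h3⟩, by rw [ns_L h3]; exact mem_uc.2 hx'⟩
  · rintro (⟨w, hw, hx⟩ | ⟨w, hw, hx⟩)
    · have h1 := lev_uc H hw
      have h2 := lev_uc H hx
      refine ⟨by omega, w, mem_uc.1 hx, ?_⟩
      rw [eZ_uc H hw, eZ_site H hz hM (x := x) (by omega)]
      exact one_pos
    · rw [mem_inter] at hw
      rw [ns_L hw.2] at hx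
      have h1 := (mem_dbL.1 hw.2).1
      have h2 := lev_uc H hx
      refine ⟨by omega, w, mem_uc.1 hx, ?_⟩
      rw [eZ_M hz hM hw.1, eZ_site H hz hM (x := x) (by omega)]
      exact one_pos

lemma eZ_AU (H : Gr P r) (hz : lev z = i + 2) (hM : M ⊆ dbL P i ∪ dbU P i) :
    AU i (eZ a z M) = (M ∩ dbU P i).biUnion (ns i) := by
  ext x
  rw [NormD_mem_AU, mem_biUnion]
  constructor
  · rintro ⟨h1, x', hx', hlt⟩
    have h2 := (H.covBy_iff.1 hx').2
    rcases eZ_pos (show 0 < eZ a z M x' by omega) with h | h | h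
    · subst h
      omega
    · have := lev_uc H h
      omega
    · have h3 : x' ∈ dbU P i := by
        rcases mem_union.1 (hM h) with h6 | h6
        · have := (mem_dbL.1 h6).1
          omega
        · exact h6
      exact ⟨x', mem_inter.2 ⟨h, h3⟩, by rw [ns_U h3]; exact mem_dc.2 hx'⟩
  · rintro ⟨w, hw, hx⟩
    rw [mem_inter] at hw
    rw [ns_U hw.2] at hx
    have h1 := (mem_dbU.1 hw.2).1
    have h2 := lev_dc H hx
    refine ⟨by omega, w, mem_dc.1 hx, ?_⟩
    rw [eZ_M hz hM hw.1, eZ_site H hz hM (x := x) (by omega)]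
    exact one_pos

end ez

open Classical in
/-- the leading coefficient of the extremal cross configurations -/
theorem trm_eZ (H : Gr P r) (hir : i ≤ r) {z y v : P} (hz : lev z = i + 2) (huc : uc z = {y, v})
    (hyv : y ≠ v) (hT : (uc y ∪ uc v).card = 3) {a : ℕ} (ha : a = 1 ∨ a = 2) {M : Finset P}
    (hM : M ⊆ dbL P i ∪ dbU P i) (hMz : Disjoint M (uc z)) (hc : M.card + a = 4) :
    dd ^ ((lv P i).card - 3) ∣ trm i (eZ a z M) +
      ((if Dj i M ∧ Disjoint (M.biUnion (ns i)) (uc y ∪ uc v) then ∏ k ∈ M, sgn i k else 0 : ℤ) : A)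
        * dd ^ ((lv P i).card - 4) := by
  have ha1 : 1 ≤ a := by omega
  have hcz : (uc z).card = 2 := by
    rw [huc, card_pair hyv]
  have hbu : (uc z).biUnion uc = uc y ∪ uc v := by
    rw [huc, biUnion_insert, singleton_biUnion]
  have eAL := eZ_AL (a := a) H hz hM
  have eAU := eZ_AU (a := a) H hz hM
  rw [hbu] at eAL
  have eaL := eZ_aL (a := a) H hz hM
  have epL := eZ_pL H hz hM ha1 hMz
  have eaU := eZ_aU (a := a) H hz hM
  have epU := eZ_pU (a := a) H hir hz hM
  rw [hcz] at eaL epL
  have hMc : M.card = (M ∩ dbL P i).card + (M ∩ dbU P i).card := by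
    rw [← card_union_of_disjoint]
    · congr 1
      rw [← inter_union_distrib_left]
      exact (inter_eq_left.2 hM).symm
    · rw [disjoint_left]
      intro x h1 h2
      rw [mem_inter] at h1 h2
      have h3 := (mem_dbL.1 h1.2).1
      have h4 := (mem_dbU.1 h2.2).1
      omega
  have hMu : (M ∩ dbL P i).biUnion (ns i) ∪ (M ∩ dbU P i).biUnion (ns i) = M.biUnion (ns i) := by
    rw [← union_biUnion, ← inter_union_distrib_left, inter_eq_left.2 hM]
  have hun : AL i (eZ a z M) ∪ AU i (eZ a z M) = (uc y ∪ uc v) ∪ M.biUnion (ns i) := by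
    rw [eAL, eAU, union_assoc, hMu]
  have hsum : ∑ x ∈ M, (ns i x).card = 2 * M.card := by
    rw [sum_congr rfl (fun x hx => ns_card (hM hx)), sum_const, smul_eq_mul, mul_comm]
  have hble : (M.biUnion (ns i)).card ≤ 2 * M.card := by
    rw [← hsum]
    exact card_biUnion_le
  have hsub : AL i (eZ a z M) ∪ AU i (eZ a z M) ⊆ lv P i := by
    intro x hx
    rw [mem_lv]
    rcases mem_union.1 hx with h | h
    · exact ((NormD_mem_AL _ _ _).1 h).1
    · exact ((NormD_mem_AU _ _ _).1 h).1
  have hBle := card_le_card hsub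
  by_cases hD : Disjoint (AL i (eZ a z M)) (AU i (eZ a z M))
  · have hcu : (AL i (eZ a z M) ∪ AU i (eZ a z M)).card =
        (AL i (eZ a z M)).card + (AU i (eZ a z M)).card := card_union_of_disjoint hD
    have htrm : trm i (eZ a z M) = xx ^ aL i (eZ a z M) * xi ^ (M ∩ dbU P i).card *
        dd ^ (pL i (eZ a z M) + (M ∩ dbU P i).card) * (xx ^ (AL i (eZ a z M)).card *
        dd ^ ((lv P i).card - (AL i (eZ a z M)).card - (AU i (eZ a z M)).card)) := by
      unfold trm
      rw [if_pos hD]
      unfold cw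
      rw [if_pos ⟨eZ_admL H hz hM, eZ_admU H hz hM⟩, eaU, epU, zero_add]
    by_cases hC : Dj i M ∧ Disjoint (M.biUnion (ns i)) (uc y ∪ uc v)
    · rw [if_pos hC]
      have h1 : (AL i (eZ a z M)).card = 3 + 2 * (M ∩ dbL P i).card := by
        rw [eAL, card_union_of_disjoint, hT, Dj_bi_card hC.1 inter_subset_left]
        refine disjoint_of_subset_right ?_ hC.2.symm
        exact biUnion_subset_biUnion_of_subset_left _ inter_subset_left
      have h2 : (AU i (eZ a z M)).card = 2 * (M ∩ dbU P i).card := by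
        rw [eAU, Dj_bi_card hC.1 inter_subset_left]
      have h3 : (lv P i).card - 3 = ((lv P i).card - 4) + 1 := by omega
      have h4 : pL i (eZ a z M) + (M ∩ dbU P i).card +
          ((lv P i).card - (AL i (eZ a z M)).card - (AU i (eZ a z M)).card) =
          (lv P i).card - 4 := by
        rcases ha with rfl | rfl
        · rw [if_neg (by omega)] at epL
          omega
        · rw [if_pos (by omega)] at epL
          omega
      have h5 : trm i (eZ a z M) = dd ^ ((lv P i).card - 4) *
          (xx ^ aL i (eZ a z M) * xi ^ (M ∩ dbU P i).card * xx ^ (AL i (eZ a z M)).card) := by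
        rw [htrm, ← h4, pow_add dd (pL i (eZ a z M) + (M ∩ dbU P i).card)]
        ring
      rw [h5, h3, mul_comm (((∏ k ∈ M, sgn i k : ℤ)) : A), ← mul_add, pow_succ]
      refine mul_dvd_mul_left _ ?_
      unfold dd
      rw [PowerSeries.X_dvd_iff, map_add, map_mul, map_mul, map_pow, map_pow, map_pow, cc_xx,
        cc_xi, prod_sgn, h1, eaL]
      have h6 : PowerSeries.constantCoeff ((((-1 : ℤ) ^ (M ∩ dbU P i).card : ℤ)) : A) =
          (-1 : ℤ) ^ (M ∩ dbU P i).card := by
        rw [map_intCast]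
        simp
      rw [h6]
      have h7 : (-1 : ℤ) ^ (3 + 2 * (M ∩ dbL P i).card) = -1 := by
        rw [pow_add, pow_mul]
        norm_num
      rw [h7]
      rcases ha with rfl | rfl
      · rw [if_neg (by omega), pow_zero]
        ring
      · rw [if_pos (by omega)]
        ring
    · rw [if_neg hC, Int.cast_zero, zero_mul, add_zero, htrm]
      have h1 : (AL i (eZ a z M)).card + (AU i (eZ a z M)).card ≤ 2 + 2 * M.card := by
        by_contra h
        apply hC
        have h2 : 3 + 2 * M.card ≤ ((uc y ∪ uc v) ∪ M.biUnion (ns i)).card := by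
          rw [← hun]
          omega
        have h3 := card_union_add_card_inter (uc y ∪ uc v) (M.biUnion (ns i))
        have h4 : ((uc y ∪ uc v) ∩ M.biUnion (ns i)).card = 0 := by omega
        have h5 : Disjoint (uc y ∪ uc v) (M.biUnion (ns i)) := by
          rw [disjoint_iff_inter_eq_empty]
          exact card_eq_zero.1 h4
        refine ⟨⟨hM, fun x hx x' hx' hne => ?_⟩, h5.symm⟩
        exact disj_of_card_biUnion (by rw [hsum]; omega) hx hx' hne
      have h2 : (lv P i).card - 3 ≤ pL i (eZ a z M) + (M ∩ dbU P i).card +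
          ((lv P i).card - (AL i (eZ a z M)).card - (AU i (eZ a z M)).card) := by
        rcases ha with rfl | rfl
        · rw [if_neg (by omega)] at epL
          omega
        · rw [if_pos (by omega)] at epL
          omega
      have h3 : xx ^ aL i (eZ a z M) * xi ^ (M ∩ dbU P i).card *
        dd ^ (pL i (eZ a z M) + (M ∩ dbU P i).card) * (xx ^ (AL i (eZ a z M)).card *
        dd ^ ((lv P i).card - (AL i (eZ a z M)).card - (AU i (eZ a z M)).card)) =
        dd ^ (pL i (eZ a z M) + (M ∩ dbU P i).card +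
          ((lv P i).card - (AL i (eZ a z M)).card - (AU i (eZ a z M)).card)) *
          (xx ^ aL i (eZ a z M) * xi ^ (M ∩ dbU P i).card * xx ^ (AL i (eZ a z M)).card) := by
        rw [pow_add dd (pL i (eZ a z M) + (M ∩ dbU P i).card)]
        ring
      rw [h3]
      exact dvd_mul_of_dvd_left (pow_dvd_pow _ h2) _
  · have hC : ¬ (Dj i M ∧ Disjoint (M.biUnion (ns i)) (uc y ∪ uc v)) := by
      rintro ⟨h1, h2⟩
      apply hD
      rw [eAL, eAU, disjoint_union_left]
      constructor
      · refine disjoint_of_subset_right ?_ h2.symm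
        exact biUnion_subset_biUnion_of_subset_left _ inter_subset_left
      · rw [disjoint_left]
        intro x hx hx'
        rw [mem_biUnion] at hx hx'
        obtain ⟨w, hw, hxw⟩ := hx
        obtain ⟨w', hw', hxw'⟩ := hx'
        rw [mem_inter] at hw hw'
        have hne : w ≠ w' := by
          rintro rfl
          have h3 := (mem_dbL.1 hw.2).1
          have h4 := (mem_dbU.1 hw'.2).1
          omega
        exact disjoint_left.1 (h1.2 w hw.1 w' hw'.1 hne) hxw hxw'
    rw [if_neg hC, Int.cast_zero, zero_mul, add_zero]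
    unfold trm
    rw [if_neg hD]
    exact dvd_zero _

end Pool.Agent.GaussPoset.Win.K2
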